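import Mathlib

/-!
# Homeomorphisms near a given one: images of balls
-/

set_option autoImplicit false

open Set Filter Topology Metric

namespace Pool.Agent.U498.TX

variable {E : Type*} [NormedAddCommGroup E] [NormedSpace ℝ E] [ProperSpace E]

/-- If `g` is close to `G` on the ball of radius `R`, then `g` maps this ball into a given
neighbourhood of its image under `G`, and the image contains the image under `G` of the ball of the
radius `r < R`. -/
theorem near_ball (G : E ≃ₜ E) {r R : ℝ} (hr : 0 < r) (hrR : r < R) {U : Set E} (hU : IsOpen U)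
    (hGU : G '' closedBall 0 R ⊆ U) :
    ∃ ε > 0, ∀ g : E ≃ₜ E, (∀ p, ‖p‖ ≤ R → ‖g p - G p‖ ≤ ε) →
      g '' closedBall 0 R ⊆ U ∧ G '' closedBall 0 r ⊆ g '' ball 0 R := by
  have hK : IsCompact (G '' closedBall 0 R) := (isCompact_closedBall 0 R).image G.continuous
  have hA : IsCompact (G '' closedBall 0 r) := (isCompact_closedBall 0 r).image G.continuous
  have hS : IsCompact (G '' sphere 0 R) := (isCompact_sphere 0 R).image G.continuous
  obtain ⟨δ₁, hδ₁, h1⟩ := hK.exists_thickening_subset_open hU hGU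
  obtain ⟨δ₂, hδ₂, h2⟩ := hA.exists_thickening_subset_open hS.isClosed.isOpen_compl (by
    rintro _ ⟨x, hx, rfl⟩ ⟨y, hy, hxy⟩
    have := G.injective hxy
    subst this
    rw [mem_closedBall_zero_iff] at hx
    rw [mem_sphere_zero_iff_norm] at hy
    linarith)
  have h3 : G '' closedBall 0 r ∈ 𝓝 (G 0) :=
    mem_of_superset ((G.isOpenMap _ isOpen_ball).mem_nhds ⟨0, mem_ball_self hr, rfl⟩)
      (image_mono ball_subset_closedBall)
  obtain ⟨δ₃, hδ₃, h3⟩ := Metric.mem_nhds_iff.1 h3
  set ε := min δ₁ (min δ₂ δ₃) / 2 with hε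
  have hm : 0 < min δ₁ (min δ₂ δ₃) := lt_min hδ₁ (lt_min hδ₂ hδ₃)
  have e0 : ε < min δ₁ (min δ₂ δ₃) := half_lt_self hm
  have e1 : ε < δ₁ := e0.trans_le (min_le_left _ _)
  have e2 : ε < δ₂ := e0.trans_le ((min_le_right _ _).trans (min_le_left _ _))
  have e3 : ε < δ₃ := e0.trans_le ((min_le_right _ _).trans (min_le_right _ _))
  refine ⟨ε, half_pos hm, fun g hg => ⟨?_, ?_⟩⟩
  · rintro _ ⟨x, hx, rfl⟩
    apply h1
    rw [mem_thickening_iff]
    refine ⟨G x, ⟨x, hx, rfl⟩, ?_⟩
    rw [dist_eq_norm]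
    exact (hg x (mem_closedBall_zero_iff.1 hx)).trans_lt e1
  · have hpre : IsPreconnected (g.symm '' (G '' closedBall 0 r)) :=
      (((convex_closedBall (0 : E) r).isPreconnected.image _ G.continuous.continuousOn).image _
        g.symm.continuous.continuousOn)
    have h0 : (0 : E) ∈ g.symm '' (G '' closedBall 0 r) := by
      refine ⟨g 0, h3 ?_, g.symm_apply_apply 0⟩
      rw [mem_ball, dist_eq_norm]
      exact (hg 0 (by rw [norm_zero]; linarith)).trans_lt e3
    intro a ha
    refine ⟨g.symm a, ?_, g.apply_symm_apply a⟩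
    rw [mem_ball_zero_iff]
    by_contra hcon
    rw [not_lt] at hcon
    have hiv := hpre.intermediate_value h0 (mem_image_of_mem g.symm ha)
      (f := fun x => ‖x‖) continuous_norm.continuousOn
    obtain ⟨y, ⟨b, hb, rfl⟩, hy⟩ := hiv (show R ∈ Icc ‖(0 : E)‖ ‖g.symm a‖ from
      ⟨by rw [norm_zero]; linarith, hcon⟩)
    have hy' : ‖g.symm b‖ = R := hy
    have hb2 : G (g.symm b) ∈ thickening δ₂ (G '' closedBall 0 r) := by
      rw [mem_thickening_iff]
      refine ⟨b, hb, ?_⟩
      have := hg (g.symm b) hy'.le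
      rw [g.apply_symm_apply, norm_sub_rev] at this
      rw [dist_eq_norm]
      exact this.trans_lt e2
    exact h2 hb2 ⟨g.symm b, by rw [mem_sphere_zero_iff_norm]; exact hy', rfl⟩

end Pool.Agent.U498.TX
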