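import Pool.Agent.U498.TX.Top
import Pool.Agent.U498.TX.Cov
import Pool.Agent.U498.TA.Fin
import Pool.Agent.Y496.SH.Mono
import Pool.Agent.Y784.SH.Ext
import Pool.Agent.Y248.SH.Germ

/-!
# Open cells which are limits of diffeomorphisms

Let `U` be an open subset of `E^n` and `φ : E^n → U` a homeomorphism. If the homeomorphisms of `E^n`
which are equal to `φ` on large balls are limits of diffeomorphisms, then `U` is diffeomorphic to
`E^n`.
-/

set_option autoImplicit false

open Set Filter Topology Metric Function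
open scoped Manifold ContDiff

noncomputable section

namespace Pool.Agent.U498.TX

open Pool.Agent.Y522 (LD Eng StExt)
open Pool.Agent.U498.TA

variable {n : ℕ}

/-- The open set `U` is the image of `E^n` under a `C^∞` diffeomorphism `f`; the inverse
diffeomorphism is `g` on `U`. -/
def IsDiffeoToSpace (U : Set (E n)) : Prop :=
  ∃ f g : E n → E n, ContDiff ℝ ∞ f ∧ ContDiffOn ℝ ∞ g U ∧ (∀ x, f x ∈ U ∧ g (f x) = x) ∧
    ∀ y ∈ U, f (g y) = y

/-- the inclusion of an open set is a local diffeomorphism (proof of helper550) -/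
theorem ld_opens (U : TopologicalSpace.Opens (E n)) (u : U) :
    LD n (Subtype.val : U → E n) u := by
  set e : OpenPartialHomeomorph U (E n) := U.openPartialHomeomorphSubtypeCoe ⟨u⟩ with he
  have hsrc : e.source = univ := TopologicalSpace.Opens.openPartialHomeomorphSubtypeCoe_source _ _
  have htgt : e.target = (U : Set (E n)) :=
    TopologicalSpace.Opens.openPartialHomeomorphSubtypeCoe_target _ _
  have hcoe : (e : U → E n) = Subtype.val :=
    TopologicalSpace.Opens.openPartialHomeomorphSubtypeCoe_coe _ _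
  refine ⟨{ toPartialEquiv := e.toPartialEquiv
            open_source := e.open_source
            open_target := e.open_target
            contMDiffOn_toFun := ?_
            contMDiffOn_invFun := ?_ }, ?_, ?_⟩
  · have h1 : ContMDiff (𝓡 n) (𝓡 n) ∞ (Subtype.val : U → E n) := contMDiff_subtype_val
    rw [← hcoe] at h1
    exact h1.contMDiffOn
  · intro z hz
    have hz' : z ∈ e.target := hz
    have hc : ContinuousAt e.symm z := e.symm.continuousAt hz'
    have h2 : ContMDiffAt (𝓡 n) (𝓡 n) ∞ e.symm z := by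
      rw [contMDiffAt_iff_target]
      refine ⟨hc, ?_⟩
      have h3 : ContMDiffAt (𝓡 n) (𝓡 n) ∞ (fun w : E n => w) z := contMDiffAt_id
      refine h3.congr_of_eventuallyEq ?_
      filter_upwards [e.open_target.mem_nhds hz'] with w hw
      have hew : (e.symm w : E n) = w := by
        have := e.right_inv hw
        rwa [hcoe] at this
      show (e.symm w : E n) = w
      exact hew
    exact h2.contMDiffWithinAt
  · show u ∈ e.source
    rw [hsrc]; trivial
  · intro y _
    show (y : E n) = e y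
    rw [hcoe]

theorem ld_of_isDiffeo {d : E n ≃ₜ E n} (hd : IsDiffeo ∞ d) (x : E n) : LD n d x := by
  let D : Diffeomorph (𝓡 n) (𝓡 n) (E n) (E n) ∞ :=
    { toEquiv := d.toEquiv
      contMDiff_toFun := contMDiff_iff_contDiff.2 hd.1
      contMDiff_invFun := contMDiff_iff_contDiff.2 hd.2 }
  exact D.isLocalDiffeomorph x

/-- the local inverse of the inclusion -/
theorem ld_inv (U : TopologicalSpace.Opens (E n)) [Nonempty U] (u : U) :
    LD n (invFun (Subtype.val : U → E n)) (u : E n) :=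
  LD.inverse isOpen_univ (fun x _ => ld_opens U x)
    (fun x _ => leftInverse_invFun Subtype.val_injective x) (mem_univ u)

theorem eng_of_lim (U : TopologicalSpace.Opens (E n)) (φ : E n ≃ₜ U)
    (H : ∀ (R : ℝ) (G : E n ≃ₜ E n), (∀ x, ‖x‖ ≤ R → G x = φ x) →
      Lim {d : E n ≃ₜ E n | IsDiffeo ∞ d} G) : Eng n U := by
  have : Nonempty U := ⟨φ 0⟩
  intro K hK
  obtain ⟨ρ, hρ⟩ := (hK.image φ.symm.continuous).isBounded.subset_closedBall (0 : E n)
  set r := max ρ 1 with hrdef
  have hr : 0 < r := lt_of_lt_of_le one_pos (le_max_right _ _)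
  set R := r + 1 with hR
  have hφ : IsOpenEmbedding fun x : E n => (φ x : E n) :=
    U.isOpen.isOpenEmbedding_subtypeVal.comp φ.isOpenEmbedding
  obtain ⟨G, hG⟩ := ext_homeo hφ R
  have hGU : G '' closedBall 0 R ⊆ (U : Set (E n)) := by
    rintro _ ⟨x, hx, rfl⟩
    rw [hG x (mem_closedBall_zero_iff.1 hx)]
    exact (φ x).2
  obtain ⟨ε, hε, hnear⟩ := near_ball G hr (show r < R by linarith) U.isOpen hGU
  obtain ⟨d, hd, hdG⟩ := H R G hG R ε hε
  obtain ⟨h1, h2⟩ := hnear d hdG
  have hR0 : 0 < R := by linarith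
  set B := OpenPartialHomeomorph.univBall (0 : E n) R with hB
  have hsrc : B.source = univ := OpenPartialHomeomorph.univBall_source _ _
  have htgt : B.target = ball 0 R := OpenPartialHomeomorph.univBall_target _ hR0
  have hBi : Injective B := by
    intro x y h
    exact B.injOn (by rw [hsrc]; exact mem_univ _) (by rw [hsrc]; exact mem_univ _) h
  have hBm : ∀ z, B z ∈ ball (0 : E n) R := by
    intro z
    rw [← htgt]
    exact B.map_source (by rw [hsrc]; exact mem_univ _)
  have hpU : ∀ z, d (B z) ∈ (U : Set (E n)) := fun z =>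
    h1 ⟨B z, ball_subset_closedBall (hBm z), rfl⟩
  refine ⟨fun z => ⟨d (B z), hpU z⟩, ?_, ?_, ?_⟩
  · intro x y hxy
    exact hBi (d.injective (congrArg Subtype.val hxy))
  · intro z
    have hp : LD n (fun z => d (B z)) z :=
      LD.comp_fun (ld_of_isDiffeo hd (B z)) (Pool.Agent.Y496.SH.LD_univBall hR0 z)
    have hs := ld_inv U ⟨d (B z), hpU z⟩
    have hc : LD n (fun z => invFun (Subtype.val : U → E n) (d (B z))) z := LD.comp_fun hs hp
    have he : (fun z => (⟨d (B z), hpU z⟩ : U)) =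
        fun z => invFun (Subtype.val : U → E n) (d (B z)) := by
      funext z
      exact (leftInverse_invFun Subtype.val_injective (⟨d (B z), hpU z⟩ : U)).symm
    rw [he]
    exact hc
  · intro u hu
    have h3 : φ.symm u ∈ closedBall (0 : E n) r :=
      closedBall_subset_closedBall (le_max_left _ _) (hρ ⟨u, hu, rfl⟩)
    have h4 : G (φ.symm u) = u := by
      rw [hG _ ((mem_closedBall_zero_iff.1 h3).trans (by linarith)), φ.apply_symm_apply]
    obtain ⟨w, hw, hwu⟩ := h2 ⟨φ.symm u, h3, h4⟩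
    refine ⟨B.symm w, Subtype.ext ?_⟩
    show d (B (B.symm w)) = u
    rw [B.right_inv (by rw [htgt]; exact hw), hwu]

theorem space_of_eng (U : TopologicalSpace.Opens (E n)) [Nonempty U] (hE : Eng n U) :
    IsDiffeoToSpace (U : Set (E n)) := by
  have : LocallyCompactSpace U := U.isOpen.locallyCompactSpace
  obtain ⟨Φ⟩ := Pool.Agent.Y496.SH.monotone (Pool.Agent.Y784.SH.ext Pool.Agent.Y248.SH.germ) n U hE
  set s : E n → U := invFun (Subtype.val : U → E n) with hs
  have hsv : ∀ u : U, s u = u := fun u => leftInverse_invFun Subtype.val_injective u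
  refine ⟨fun x => (Φ.symm x : E n), fun y => Φ (s y), ?_, ?_, fun x => ⟨(Φ.symm x).2, ?_⟩,
    fun y hy => ?_⟩
  · rw [← contMDiff_iff_contDiff]
    exact contMDiff_subtype_val.comp Φ.symm.contMDiff
  · intro y hy
    have h1 : ContMDiffAt (𝓡 n) (𝓡 n) ∞ s y := (ld_inv U ⟨y, hy⟩).contMDiffAt
    have h2 : ContMDiffAt (𝓡 n) (𝓡 n) ∞ (fun y => Φ (s y)) y := Φ.contMDiff.contMDiffAt.comp y h1
    exact (contMDiffAt_iff_contDiffAt.1 h2).contDiffWithinAt
  · show Φ (s (Φ.symm x : E n)) = x
    rw [hsv, Φ.apply_symm_apply]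
  · show ((Φ.symm (Φ (s y)) : U) : E n) = y
    rw [Φ.symm_apply_apply]
    exact congrArg Subtype.val (hsv ⟨y, hy⟩)

/-- An open cell which is not diffeomorphic to `E^n` gives a homeomorphism of `E^n` which is not a
limit of diffeomorphisms. -/
theorem exotic (U : Set (E n)) (hU : IsOpen U) (φ : E n ≃ₜ U) (hex : ¬ IsDiffeoToSpace U) :
    ∃ (R : ℝ) (h : E n ≃ₜ E n), (∀ x, ‖x‖ ≤ R → h x = φ x) ∧
      ¬ Lim {d : E n ≃ₜ E n | IsDiffeo ∞ d} h := by
  by_contra hcon
  push Not at hcon
  let V : TopologicalSpace.Opens (E n) := ⟨U, hU⟩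
  have : Nonempty V := ⟨φ 0⟩
  exact hex (space_of_eng V (eng_of_lim V φ hcon))

/-- the negated form of Q1 from an open cell which is not diffeomorphic to `E^n` -/
theorem negated (U : Set (E n)) (hU : IsOpen U) (φ : E n ≃ₜ U) (hex : ¬ IsDiffeoToSpace U) :
    ∃ (R : ℝ) (h : E n ≃ₜ E n), (∀ x, ‖x‖ ≤ R → h x = φ x) ∧
      ∃ B : Set (E n), Bornology.IsBounded B ∧ ∃ ε > 0, ∀ g : E n ≃ₜ E n,
        g ∈ Subgroup.closure (TypeA n) ∨ IsDiffeo 1 g → ∃ p ∈ B, ε ≤ ‖g p - h p‖ := by
  obtain ⟨R, h, hh, hL⟩ := exotic U hU φ hex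
  unfold Lim at hL
  push Not at hL
  obtain ⟨R', ε, hε, hd⟩ := hL
  have key : ∀ g ∈ Subgroup.closure (TypeA n), ∃ p ∈ closedBall (0 : E n) R',
      ε / 2 ≤ ‖g p - h p‖ := by
    intro g hg
    have h1 : Approx (Subgroup.closure (TypeA n)) g := fun B _ ε hε => ⟨g, hg, fun p _ => by
      rw [sub_self, norm_zero]; exact hε⟩
    have h2 : Lim {d : E n ≃ₜ E n | IsDiffeo ∞ d} g := ((fin_tfae g).out 0 1).1 h1
    obtain ⟨d, hdd, hdg⟩ := h2 R' (ε / 2) (by positivity)
    obtain ⟨p, hp, hlt⟩ := hd d hdd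
    refine ⟨p, mem_closedBall_zero_iff.2 hp, ?_⟩
    have h3 : ‖d p - h p‖ ≤ ‖d p - g p‖ + ‖g p - h p‖ := norm_sub_le_norm_sub_add_norm_sub _ _ _
    have h4 := hdg p hp
    linarith
  refine ⟨R, h, hh, closedBall 0 R', isBounded_closedBall, ε / 2, by positivity, ?_⟩
  rintro g (hg | hg)
  · exact key g hg
  · obtain ⟨g', hg', he⟩ := fin_near_typeA g (fun x => diffeo_near' hg x) (closedBall 0 R')
      isBounded_closedBall
    obtain ⟨p, hp, hle⟩ := key g' hg'
    exact ⟨p, hp, by rwa [← he p hp]⟩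

end Pool.Agent.U498.TX
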