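import Pool.Agent.H721R2.Brown

/-!
# Topological extension of open embeddings of a Euclidean space

An open embedding of `E` into itself is equal, on every ball, to a homeomorphism of `E` (Brown's
construction, continued from a given open embedding).
-/

set_option autoImplicit false

open Set Filter Topology Metric

namespace Pool.Agent.U498.TX

open Pool.Agent.H721R2

variable {E : Type*} [NormedAddCommGroup E] [NormedSpace ℝ E] [ProperSpace E]

/-- Brown's theorem on monotone unions of open cells, with a given first embedding. -/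
theorem brown_from {Z : Type*} [TopologicalSpace Z] [T2Space Z] {z₀ : Z}
    (hcell : ∀ C : Set Z, IsCompact C → ∃ h : E → Z, IsOpenEmbedding h ∧ h 0 = z₀ ∧ C ⊆ range h)
    (C : ℕ → Set Z) (hC : ∀ n, IsCompact (C n)) (hCU : ∀ z, ∃ n, z ∈ C n)
    {h₀ : E → Z} (hh₀ : IsOpenEmbedding h₀) (hh₀0 : h₀ 0 = z₀) :
    ∃ G : E ≃ₜ Z, ∀ x, ‖x‖ ≤ 1 → G x = h₀ x := by
  have hstep : ∀ (n : ℕ) (h : {h : E → Z // IsOpenEmbedding h ∧ h 0 = z₀}),
      ∃ h' : {h : E → Z // IsOpenEmbedding h ∧ h 0 = z₀},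
        (∀ x, ‖x‖ ≤ (n : ℝ) + 1 → h'.1 x = h.1 x) ∧ C n ⊆ h'.1 '' ball 0 ((n : ℝ) + 1 + 1) := by
    intro n h
    obtain ⟨h', a1, a2, a3, a4⟩ := brown_step hcell h.2.1 h.2.2 ((n : ℝ) + 1) (by positivity)
      (C n) (hC n)
    exact ⟨⟨h', a1, a2⟩, a3, a4⟩
  choose F hF1 hF2 using hstep
  let h : ℕ → {h : E → Z // IsOpenEmbedding h ∧ h 0 = z₀} := fun n =>
    Nat.rec ⟨h₀, hh₀, hh₀0⟩ (fun n h => F n h) n
  have hs : ∀ (n : ℕ) (x : E), ‖x‖ ≤ (n : ℝ) + 1 → (h (n + 1)).1 x = (h n).1 x := fun n x hx =>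
    hF1 n (h n) x hx
  have hc : ∀ n : ℕ, C n ⊆ (h (n + 1)).1 '' ball 0 ((n : ℝ) + 1 + 1) := fun n => hF2 n (h n)
  have hstab : ∀ (x : E) (n m : ℕ), ‖x‖ ≤ (n : ℝ) + 1 → n ≤ m → (h m).1 x = (h n).1 x := by
    intro x n m hx hnm
    induction m, hnm using Nat.le_induction with
    | base => rfl
    | succ m hm ih =>
      rw [hs m x (hx.trans (by have : (n : ℝ) ≤ m := by exact_mod_cast hm
                               linarith)), ih]
  let G : E → Z := fun x => (h ⌈‖x‖⌉₊).1 x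
  have hG : ∀ (x : E) (n : ℕ), ‖x‖ ≤ (n : ℝ) + 1 → G x = (h n).1 x := by
    intro x n hx
    show (h ⌈‖x‖⌉₊).1 x = (h n).1 x
    rcases le_total n ⌈‖x‖⌉₊ with h1 | h1
    · exact hstab x n _ hx h1
    · exact (hstab x _ n (by have := Nat.le_ceil ‖x‖; linarith) h1).symm
  have hnhds : ∀ x, map G (𝓝 x) = 𝓝 (G x) := by
    intro x
    obtain ⟨n, hn⟩ := exists_nat_gt ‖x‖
    have h1 : G =ᶠ[𝓝 x] (h n).1 := by
      have : ball (0 : E) n ∈ 𝓝 x := isOpen_ball.mem_nhds (by rwa [mem_ball_zero_iff])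
      filter_upwards [this] with y hy
      rw [mem_ball_zero_iff] at hy
      exact hG y n (by linarith)
    rw [Filter.map_congr h1, hG x n (by linarith)]
    exact (h n).2.1.map_nhds_eq x
  have hGc : Continuous G := continuous_iff_continuousAt.mpr fun x => (hnhds x).le
  have hGo : IsOpenMap G := IsOpenMap.of_nhds_le fun x => (hnhds x).ge
  have hGi : Function.Injective G := by
    intro x y hxy
    obtain ⟨n, hn⟩ := exists_nat_gt (max ‖x‖ ‖y‖)
    have hx : ‖x‖ ≤ (n : ℝ) + 1 := by linarith [le_max_left ‖x‖ ‖y‖]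
    have hy : ‖y‖ ≤ (n : ℝ) + 1 := by linarith [le_max_right ‖x‖ ‖y‖]
    rw [hG x n hx, hG y n hy] at hxy
    exact (h n).2.1.injective hxy
  have hGs : Function.Surjective G := by
    intro z
    obtain ⟨n, hn⟩ := hCU z
    obtain ⟨x, hx, hxz⟩ := hc n hn
    rw [mem_ball_zero_iff] at hx
    refine ⟨x, ?_⟩
    rw [hG x (n + 1) (by push_cast; linarith)]
    exact hxz
  refine ⟨(Equiv.ofBijective G ⟨hGi, hGs⟩).toHomeomorphOfContinuousOpen hGc hGo, fun x hx => ?_⟩
  show G x = h₀ x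
  rw [hG x 0 (by push_cast; linarith)]
  rfl

/-- An open embedding of `E` into itself is equal, on every ball, to a homeomorphism of `E`. -/
theorem ext_homeo {φ : E → E} (hφ : IsOpenEmbedding φ) (R : ℝ) :
    ∃ G : E ≃ₜ E, ∀ x, ‖x‖ ≤ R → G x = φ x := by
  have hr : (0 : ℝ) < max R 1 := lt_of_lt_of_le one_pos (le_max_right _ _)
  set r := max R 1 with hrdef
  have hr0 : r ≠ 0 := hr.ne'
  have h₀ : IsOpenEmbedding fun x : E => φ ((Homeomorph.smulOfNeZero r hr0 : E ≃ₜ E) x) :=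
    hφ.comp (Homeomorph.isOpenEmbedding _)
  obtain ⟨G, hG⟩ := brown_from (E := E) (Z := E) (z₀ := φ 0)
    (fun C _ => ⟨fun x => (Homeomorph.addRight (φ 0)) x, Homeomorph.isOpenEmbedding _,
      by simp, fun x _ => ⟨x - φ 0, by simp⟩⟩)
    (fun n => closedBall 0 n) (fun n => isCompact_closedBall _ _)
    (fun z => by
      obtain ⟨n, hn⟩ := exists_nat_gt ‖z‖
      exact ⟨n, by rw [mem_closedBall_zero_iff]; exact hn.le⟩)
    h₀ (by simp)
  refine ⟨(Homeomorph.smulOfNeZero r hr0).symm.trans G, fun x hx => ?_⟩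
  have h1 : ‖(Homeomorph.smulOfNeZero r hr0).symm x‖ ≤ 1 := by
    show ‖r⁻¹ • x‖ ≤ 1
    rw [norm_smul, norm_inv, Real.norm_of_nonneg hr.le, inv_mul_le_iff₀ hr, mul_one]
    exact hx.trans (le_max_left _ _)
  rw [Homeomorph.trans_apply, hG _ h1, Homeomorph.apply_symm_apply]

end Pool.Agent.U498.TX
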